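import Pool.Agent.helper37.L5.SpecE

/-! # Project L5 (MP_baa4d7_al), row DZ5: the sum of Dade over all `d` and all `U` containing `a` is zero -/

set_option autoImplicit false

namespace Pool.Agent.L5

open Pool.Agent.helper58.DC Pool.Agent.DI Pool.Agent.GR Pool.Agent.OB Pool.Agent.DR Pool.Agent.FI Pool.Agent.FI3 Pool.Agent.FI4 Pool.Agent.FI4I Pool.Agent.FI4E Pool.Agent.LE

/-- the power of the action which is inner -/
theorem DZ5_pow {G E A : Type} [Group G] [Group E] [Group A] (X : Extension G E A) (e : E) :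
    ∃ y : G, (X.act e) ^ orderOf (X.proj e) = MulAut.conj y := by
  have h1 : X.proj (e ^ orderOf (X.proj e)) = 1 := by
    rw [map_pow, pow_orderOf_eq_one]
  obtain ⟨y, hy⟩ := (X.exact _).1 h1
  refine ⟨y, ?_⟩
  rw [← map_pow, ← hy]
  ext g
  apply X.inc_injective
  rw [X.act_spec, MulAut.conj_apply, map_mul, map_mul, map_inv]

theorem DZ5 (hOMX : OMX_stmt) (hOMR : OMR_stmt) (hDFR : DFR5_stmt) (hTG : TG5E_stmt) (hMN : MN5E_stmt)
    (hBAA : BAA_stmt) (hECN : ECN_stmt) (hOUP : OUP5_stmt) : DZ5_stmt := by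
  intro p M hS H hHer c v hc hBDH G E A _ _ _ _ _ X hOp D x θ χ hRt hH hz a hpa hJ
  obtain ⟨e, rfl⟩ := X.proj_surjective a
  have hχ : χ ∈ Irr G := hRt.chi
  have h1 := hOMX p M hS G E A X hOp χ hχ e
  have hG : (Nat.card G : ℂ) ≠ 0 := Nat.cast_ne_zero.2 Nat.card_pos.ne'
  have : Finite A := Finite.of_surjective X.proj X.proj_surjective
  have hn0 : 0 < orderOf (X.proj e) := orderOf_pos _
  have hEc : ¬ Ec p (c + v) D ≤ ⊥ := by
    rw [le_bot_iff]
    exact (hECN p (c + v) hS.pr G D hRt.dfa.pgrp hRt.com).2.2.2.2.1 hz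
  have h0 : Om p M χ ⊥ (X.act e) = 0 := by
    by_cases hst : Stb M χ (X.act e)
    · obtain ⟨g, hg⟩ := hDFR p M hS G D x θ χ hRt (X.act e) hst
      rw [← (hOMR p M hS G χ ⊥ (X.act e)).1 g]
      have hin : ∃ y : G, (al (X.act e) g) ^ orderOf (X.proj e) = MulAut.conj y :=
        (hOUP G (X.act e) (orderOf (X.proj e))).1 (DZ5_pow X e) g
      rw [hTG p M hS H hHer G D x θ χ hRt hH (c + v) (orderOf (X.proj e)) ⊥ hOp bot_le hEc _ hg hin
        (fun G' _ _ _ D' x' θ' χ' h2 h3 β h4 h5 =>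
          hMN p M hS H hHer c v (orderOf (X.proj e)) hc hBDH hn0 hpa hJ G' D' x' θ' χ' h2 h3 β h4 h5),
        hMN p M hS H hHer c v (orderOf (X.proj e)) hc hBDH hn0 hpa hJ G D x θ χ hRt hH _ hg hin,
        sub_self, mul_zero]
    · exact (hOMR p M hS G χ ⊥ (X.act e)).2 hχ hst
  rw [h0] at h1
  have h2 := (mul_eq_zero.1 h1).resolve_left hG
  exact_mod_cast h2

end Pool.Agent.L5
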